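import Pool.Agent.H.MP_9e990c_al.h70.Main

set_option autoImplicit false

/-!
# A division algebra of degree 27 without 3-central elements

Negative answer to Q1 of `MP_9e990c_al` (for the prime 3 and degree 27).

The field `F` contains a primitive cube root of unity, `D` is a division ring with centre exactly
`F` and dimension `27 ^ 2` over `F`, and every `x` in `D` whose cube lies in `F` lies in `F`.
-/

namespace Pool.Agent.Results.MP_9e990c_al.ThreeCentral

/-- **Theorem.** There are a field `F` containing a primitive cube root of unity and a central
division algebra `D` over `F` of degree 27 (so of dimension `27 ^ 2`) such that no element of `D`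
outside `F` has its cube in `F`. -/
theorem result :
    ∃ (F : Type) (_ : Field F) (D : Type) (_ : DivisionRing D) (_ : Algebra F D),
      (∃ ζ : F, IsPrimitiveRoot ζ 3) ∧ Algebra.IsCentral F D ∧
        Module.finrank F D = 27 ^ 2 ∧
        ∀ x : D, x ^ 3 ∈ (algebraMap F D).range → x ∈ (algebraMap F D).range :=
  Pool.Agent.H.MP_9e990c_al.h70.final

end Pool.Agent.Results.MP_9e990c_al.ThreeCentral
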